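import Pool.Agent.Q296.Disp.Asm
import Pool.Agent.Q296.Disp.Tab
import Pool.Agent.Q296.Disp.Dis
import Pool.Agent.Q296.Disp.Inv
import Pool.Agent.Q296.Disp.Th
import Pool.Agent.Q296.Disp.Num
import Pool.Agent.Q296.Disp.K
import Pool.Agent.Q296.Disp.Ch

/-! # The total-displacement measure on permutations is positively associated

For every `n` and every `0 < q ≤ 1` the measure `μ(a) ∝ q ^ D(a)` on `S_n`,
`D(a) = ∑ |i - pos(a, i)|`, is positively associated for the strong (Bruhat) order.  More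
generally so is every measure `μ(a) ∝ ∏_c x(c) ^ m_c(a)`, `0 < x(c) ≤ 1`, where `m_c(a)` is the
number of entries carried across the gap `c | c + 1` from the left to the right.

A permutation `a : Equiv.Perm (Fin n)` has the entry `a k` at position `k`, and
`pos(a, i) = a.symm i`; positions and entries are numbered from `0`. -/

set_option autoImplicit false

namespace Pool.Agent.Results.MP_7e7ec7_co.DisplacementAssociated

open Finset Pool.Agent.Q296.Disp

/-- strong up-sets: whenever `a ∈ A` and `{i, j}` is an inversion of `a`, exchanging the entries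
`i` and `j` gives an element of `A` -/
def StrongUp {n : ℕ} (A : Finset (Equiv.Perm (Fin n))) : Prop :=
  ∀ a ∈ A, ∀ i j : Fin n, i < j → a.symm j < a.symm i → Equiv.swap i j * a ∈ A

/-- the total displacement -/
def D {n : ℕ} (a : Equiv.Perm (Fin n)) : ℕ :=
  ∑ i : Fin n, (((i : ℕ) : ℤ) - ((a.symm i : Fin n) : ℕ)).natAbs

/-- the number of entries carried across the gap between the positions `c - 1` and `c` (numbered
from `0`): the number of positions `k < c` with an entry `≥ c` -/
def gap {n : ℕ} (c : ℕ) (a : Equiv.Perm (Fin n)) : ℕ :=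
  (Finset.univ.filter (fun k : Fin n => (k : ℕ) < c ∧ c ≤ (a k : ℕ))).card

/-- the probability measure with weights proportional to `w` -/
noncomputable def prob {n : ℕ} (w : Equiv.Perm (Fin n) → ℝ)
    (A : Finset (Equiv.Perm (Fin n))) : ℝ := (∑ a ∈ A, w a) / ∑ a, w a

/-- the displacement measure -/
noncomputable def μ {n : ℕ} (q : ℝ) (A : Finset (Equiv.Perm (Fin n))) : ℝ :=
  prob (fun a => q ^ D a) A

lemma prob_congr {n : ℕ} {w w' : Equiv.Perm (Fin n) → ℝ} {c : ℝ} (hc : c ≠ 0)
    (h : ∀ a, w a = c * w' a) (A : Finset (Equiv.Perm (Fin n))) : prob w A = prob w' A := by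
  unfold prob
  simp only [h]
  rw [← Finset.mul_sum, ← Finset.mul_sum, mul_div_mul_left _ _ hc]

lemma assoc_of_good (hTAB : S_TAB) {n : ℕ} {W : Equiv.Perm (Fin n) → ℝ} (hW : ∀ a, 0 < W a)
    (h : Good n 0 0 W) {A B : Finset (Equiv.Perm (Fin n))} (hA : StrongUp A) (hB : StrongUp B) :
    prob W A * prob W B ≤ prob W (A ∩ B) := by
  have hmono : ∀ C : Finset (Equiv.Perm (Fin n)), StrongUp C →
      Mo n n (fun a => if a ∈ C then (1 : ℝ) else 0) := by
    intro C hC a b hab
    by_cases ha : a ∈ C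
    · have hb : b ∈ C := by
        apply hTAB n C hC a b ha
        intro x y
        have hx : ∀ c : Equiv.Perm (Fin n), r c x y = r c (min x n) (min y n) := by
          intro c
          unfold r
          congr 1
          apply Finset.filter_congr
          intro k _
          have h1 := k.2
          have h2 := (c k).2
          constructor <;> rintro ⟨h3, h4⟩ <;> constructor <;> omega
        rw [hx a, hx b]
        exact hab _ (min_le_right _ _) _ (min_le_right _ _)
      simp [ha, hb]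
    · simp only [ha, if_false]
      split_ifs <;> norm_num
  have key := pa_of_good h (hmono A hA) (hmono B hB)
  have hsum : ∀ C : Finset (Equiv.Perm (Fin n)),
      ∑ a, W a * (if a ∈ C then (1 : ℝ) else 0) = ∑ a ∈ C, W a := by
    intro C
    simp only [mul_ite, mul_one, mul_zero]
    rw [Finset.sum_ite_mem, Finset.univ_inter]
  have hAB : ∀ a : Equiv.Perm (Fin n), (if a ∈ A then (1 : ℝ) else 0) *
      (if a ∈ B then (1 : ℝ) else 0) = if a ∈ A ∩ B then 1 else 0 := by
    intro a
    by_cases h1 : a ∈ A <;> by_cases h2 : a ∈ B <;> simp [h1, h2]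
  simp only [hAB] at key
  rw [hsum, hsum, hsum] at key
  have hW0 : 0 < ∑ a, W a := Finset.sum_pos (fun a _ => hW a) ⟨1, Finset.mem_univ _⟩
  unfold prob
  rw [div_mul_div_comm, div_le_div_iff₀ (mul_pos hW0 hW0) hW0]
  nlinarith [key, hW0]

/-- the weights of the gaps -/
lemma gap_add_r {n : ℕ} {c : ℕ} (hc : c ≤ n) (a : Equiv.Perm (Fin n)) : gap c a + r a c c = c := by
  unfold gap r
  rw [← Finset.card_union_of_disjoint]
  · have : (univ.filter fun k : Fin n => (k : ℕ) < c ∧ c ≤ (a k : ℕ)) ∪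
        (univ.filter fun k : Fin n => (k : ℕ) < c ∧ (a k : ℕ) < c) =
        univ.filter fun k : Fin n => (k : ℕ) < c := by
      ext k
      simp only [Finset.mem_union, Finset.mem_filter, Finset.mem_univ, true_and]
      omega
    rw [this]
    have h2 : (univ.filter fun k : Fin n => (k : ℕ) < c) =
        (Finset.range c).attachFin (fun m hm => by
          rw [Finset.mem_range] at hm; omega) := by
      ext k
      simp
    rw [h2]
    simp
  · rw [Finset.disjoint_left]
    intro k hk hk'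
    simp only [Finset.mem_filter] at hk hk'
    omega

lemma D_eq (hDIS : S_DIS) {n : ℕ} (a : Equiv.Perm (Fin n)) :
    D a = 2 * ∑ c ∈ Finset.range n, gap c a := by
  have h1 := hDIS n a
  have h2 : ((D a : ℕ) : ℤ) = ∑ v : Fin n, |((v : ℕ) : ℤ) - ((a.symm v : Fin n) : ℕ)| := by
    unfold D
    push_cast
    rfl
  have h3 : (∑ c ∈ Finset.range n, (gap c a : ℤ)) + ∑ c ∈ range n, (r a c c : ℤ) =
      ∑ c ∈ range n, (c : ℤ) := by
    rw [← Finset.sum_add_distrib]
    apply Finset.sum_congr rfl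
    intro c hc
    have := gap_add_r (Finset.mem_range.1 hc).le a
    exact_mod_cast this
  have h4 : ((D a : ℕ) : ℤ) = ((2 * ∑ c ∈ Finset.range n, gap c a : ℕ) : ℤ) := by
    push_cast
    linarith
  exact_mod_cast h4

lemma gaps (hTAB : S_TAB) (hSW : S_SW) (hINV : S_INV) (hTH : S_TH) (hNUM : S_NUM) (hKK : S_K)
    (hCH : S_CH) {n : ℕ} (x : ℕ → ℝ) (hx : ∀ c, 0 < x c) (hx1 : ∀ c, x c ≤ 1)
    {A B : Finset (Equiv.Perm (Fin n))} (hA : StrongUp A) (hB : StrongUp B) :
    prob (fun a => ∏ c ∈ Finset.range n, x c ^ gap c a) A *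
      prob (fun a => ∏ c ∈ Finset.range n, x c ^ gap c a) B ≤
      prob (fun a => ∏ c ∈ Finset.range n, x c ^ gap c a) (A ∩ B) := by
  have h := good_diag (n := n) hSW hINV hTH hNUM hKK hCH (fun c => (x c)⁻¹)
    (fun c => (one_le_inv₀ (hx c)).2 (hx1 c)) n 0 (by omega)
  have hc0 : (∏ c ∈ Finset.range n, x c ^ c) ≠ 0 :=
    Finset.prod_ne_zero_iff.2 fun c _ => (pow_pos (hx c) _).ne'
  have hw : ∀ a : Equiv.Perm (Fin n), ∏ c ∈ Finset.range n, x c ^ gap c a =
      (∏ c ∈ Finset.range n, x c ^ c) * ∏ c ∈ Finset.Ico 0 n, (x c)⁻¹ ^ (r a c c) := by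
    intro a
    rw [← Finset.range_eq_Ico, ← Finset.prod_mul_distrib]
    apply Finset.prod_congr rfl
    intro c hc
    have h2 : x c ^ c = x c ^ gap c a * x c ^ r a c c := by
      rw [← pow_add, gap_add_r (Finset.mem_range.1 hc).le a]
    rw [h2, inv_pow, mul_assoc, mul_inv_cancel₀ (pow_pos (hx c) _).ne', mul_one]
  rw [prob_congr hc0 hw, prob_congr hc0 hw, prob_congr hc0 hw]
  exact assoc_of_good hTAB (fun a => Finset.prod_pos fun c _ => pow_pos (inv_pos.2 (hx c)) _)
    h hA hB

lemma disp (hTAB : S_TAB) (hDIS : S_DIS) (hSW : S_SW) (hINV : S_INV) (hTH : S_TH)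
    (hNUM : S_NUM) (hKK : S_K) (hCH : S_CH) {n : ℕ} {q : ℝ} (hq : 0 < q) (hq1 : q ≤ 1)
    {A B : Finset (Equiv.Perm (Fin n))} (hA : StrongUp A) (hB : StrongUp B) :
    μ q A * μ q B ≤ μ q (A ∩ B) := by
  have h := gaps hTAB hSW hINV hTH hNUM hKK hCH (fun _ => q ^ 2) (fun _ => pow_pos hq 2)
    (fun _ => pow_le_one₀ hq.le hq1) hA hB
  have e : (fun a : Equiv.Perm (Fin n) => ∏ c ∈ Finset.range n, (q ^ 2) ^ gap c a) =
      fun a => q ^ D a := by
    funext a
    rw [D_eq hDIS a, Finset.prod_pow_eq_pow_sum, ← pow_mul]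
  rw [e] at h
  exact h

/-- **Main theorem.** -/
theorem result :
    -- Question 1: for every `n` and every `0 < q ≤ 1` the measure `μ_{n,q}` is positively
    -- associated
    (∀ (n : ℕ) (q : ℝ), 0 < q → q ≤ 1 → ∀ A B : Finset (Equiv.Perm (Fin n)),
      StrongUp A → StrongUp B → μ q A * μ q B ≤ μ q (A ∩ B)) ∧
    -- more generally every measure proportional to `∏_c x(c) ^ m_c(a)`, `0 < x(c) ≤ 1`
    (∀ (n : ℕ) (x : ℕ → ℝ), (∀ c, 0 < x c) → (∀ c, x c ≤ 1) →
      ∀ A B : Finset (Equiv.Perm (Fin n)), StrongUp A → StrongUp B →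
      prob (fun a => ∏ c ∈ Finset.range n, x c ^ gap c a) A *
        prob (fun a => ∏ c ∈ Finset.range n, x c ^ gap c a) B ≤
        prob (fun a => ∏ c ∈ Finset.range n, x c ^ gap c a) (A ∩ B)) :=
  ⟨fun _ _ hq hq1 _ _ hA hB => disp tab dis sw inv th num kk ch hq hq1 hA hB,
    fun _ x hx hx1 _ _ hA hB => gaps tab sw inv th num kk ch x hx hx1 hA hB⟩

end Pool.Agent.Results.MP_7e7ec7_co.DisplacementAssociated
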